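import Pool.Agent.helper54.V3.SpecG

set_option autoImplicit false

open Complex Metric Set Filter Topology MeasureTheory MPS V3

noncomputable section

namespace V3S

theorem GCN_Pin (D : ℕ → Dat) (z : ℂ) (hz : z ∉ Pin D) :
    ∃ ε > (0 : ℝ), closedBall z ε ⊆ (Pin D)ᶜ := by
  have h1 : ∃ ε > (0 : ℝ), ¬ ∀ᶠ m in UF, ∃ l : ZMod (D m).k, ‖(D m).p l - z‖ < ε := by
    by_contra hcon
    push Not at hcon
    exact hz hcon
  obtain ⟨ε, hε, h2⟩ := h1
  refine ⟨ε / 2, by positivity, ?_⟩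
  intro q hq hqP
  apply h2
  filter_upwards [hqP (ε / 2) (by positivity)] with m hm
  obtain ⟨l, hl⟩ := hm
  refine ⟨l, ?_⟩
  rw [mem_closedBall, dist_eq_norm] at hq
  calc ‖(D m).p l - z‖ = ‖((D m).p l - q) + (q - z)‖ := by rw [sub_add_sub_cancel]
    _ ≤ ‖(D m).p l - q‖ + ‖q - z‖ := norm_add_le _ _
    _ < ε := by linarith

/-- a common radius -/
theorem GCN_eps (D : ℕ → Dat) (S : Finset ℂ) (δ : ℝ) (hδ : 0 < δ) (hS : ∀ z ∈ S, z ∉ Pin D) :
    ∃ ε > (0 : ℝ), ε ≤ δ ∧ (∀ z ∈ S, closedBall z ε ⊆ (Pin D)ᶜ) ∧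
      ∀ z ∈ S, ∀ z' ∈ S, z ≠ z' → Disjoint (ball z ε) (ball z' ε) := by
  classical
  -- all the conditions are eventually true as `ε → 0+`
  have h1 : ∀ᶠ ε : ℝ in 𝓝[>] 0, ε ≤ δ := by
    filter_upwards [Ioo_mem_nhdsGT hδ] with ε hε
    exact hε.2.le
  have h2 : ∀ z ∈ S, ∀ᶠ ε : ℝ in 𝓝[>] 0, closedBall z ε ⊆ (Pin D)ᶜ := by
    intro z hz
    obtain ⟨ε₀, hε₀, h3⟩ := GCN_Pin D z (hS z hz)
    filter_upwards [Ioo_mem_nhdsGT hε₀] with ε hε
    exact (closedBall_subset_closedBall hε.2.le).trans h3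
  have h3 : ∀ z ∈ S, ∀ z' ∈ S, ∀ᶠ ε : ℝ in 𝓝[>] 0, z ≠ z' → Disjoint (ball z ε) (ball z' ε) := by
    intro z hz z' hz'
    by_cases hne : z = z'
    · exact Eventually.of_forall fun ε h => absurd hne h
    · have hd : 0 < dist z z' / 2 := half_pos (dist_pos.mpr hne)
      filter_upwards [Ioo_mem_nhdsGT hd] with ε hε _
      apply ball_disjoint_ball
      linarith [hε.2]
  have h4 : ∀ᶠ ε : ℝ in 𝓝[>] 0, ∀ z ∈ S, closedBall z ε ⊆ (Pin D)ᶜ :=
    (Finset.eventually_all S).mpr h2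
  have h5 : ∀ᶠ ε : ℝ in 𝓝[>] 0, ∀ z ∈ S, ∀ z' ∈ S, z ≠ z' → Disjoint (ball z ε) (ball z' ε) :=
    (Finset.eventually_all S).mpr fun z hz => (Finset.eventually_all S).mpr (h3 z hz)
  have h6 : ∀ᶠ ε : ℝ in 𝓝[>] 0, 0 < ε := self_mem_nhdsWithin
  obtain ⟨ε, hε1, hε2, hε3, hε4⟩ := (h1.and (h4.and (h5.and h6))).exists
  exact ⟨ε, hε4, hε1, hε2, hε3⟩

/-- the count for one datum -/
theorem GCN_count (k N M₀ : ℕ) (hk : 1 ≤ k) (hN : 1 ≤ N) (P : Polynomial ℂ) (hP : P ≠ 0)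
    (hdeg : P.natDegree ≤ 2 * k - 1) (U : ℕ → Finset ℂ) (φ : ℕ → ℂ → ℂ)
    (hinj : ∀ j < k, ∀ u ∈ U j, ∀ u' ∈ U j, φ j u = φ j u' → u = u')
    (hM : ∀ j < k, M₀ ≤ ∑ u ∈ U j, P.rootMultiplicity (φ j u))
    (hcard : ∀ (Z : ℂ) (J : Finset ℕ), (∀ j ∈ J, j < k) → (∀ j ∈ J, ∃ u ∈ U j, φ j u = Z) →
      J.card ≤ N) : M₀ + 1 ≤ 2 * N := by
  classical
  have h1 : ∀ j < k, M₀ ≤ ∑ Z ∈ P.roots.toFinset,
      if ∃ u ∈ U j, φ j u = Z then P.rootMultiplicity Z else 0 := by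
    intro j hj
    refine (hM j hj).trans ?_
    have h2 : ∑ u ∈ U j, P.rootMultiplicity (φ j u) =
        ∑ Z ∈ (U j).image (φ j), P.rootMultiplicity Z := by
      rw [Finset.sum_image]
      intro u hu u' hu' h
      exact hinj j hj u hu u' hu' h
    rw [h2, ← Finset.sum_filter]
    apply Finset.sum_le_sum_of_ne_zero
    intro Z hZ hne
    rw [Finset.mem_filter, Multiset.mem_toFinset, Polynomial.mem_roots hP]
    rw [Finset.mem_image] at hZ
    refine ⟨?_, hZ⟩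
    rw [← Polynomial.rootMultiplicity_pos hP]
    omega
  have h2 : k * M₀ ≤ ∑ j ∈ Finset.range k, ∑ Z ∈ P.roots.toFinset,
      if ∃ u ∈ U j, φ j u = Z then P.rootMultiplicity Z else 0 := by
    have h3 := Finset.card_nsmul_le_sum (Finset.range k) (fun j => ∑ Z ∈ P.roots.toFinset,
      if ∃ u ∈ U j, φ j u = Z then P.rootMultiplicity Z else 0) M₀
      (fun j hj => h1 j (Finset.mem_range.mp hj))
    rw [Finset.card_range, smul_eq_mul] at h3
    exact h3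
  rw [Finset.sum_comm] at h2
  have h3 : ∀ Z ∈ P.roots.toFinset, (∑ j ∈ Finset.range k,
      if ∃ u ∈ U j, φ j u = Z then P.rootMultiplicity Z else 0) ≤ N * P.roots.count Z := by
    intro Z _
    rw [← Finset.sum_filter, Finset.sum_const, smul_eq_mul, Polynomial.count_roots]
    apply Nat.mul_le_mul_right
    apply hcard Z
    · intro j hj
      exact Finset.mem_range.mp (Finset.mem_filter.mp hj).1
    · intro j hj
      exact (Finset.mem_filter.mp hj).2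
  have h4 := h2.trans (Finset.sum_le_sum h3)
  rw [← Finset.mul_sum, Multiset.toFinset_sum_count_eq] at h4
  have h5 : P.roots.card ≤ 2 * k - 1 := (Polynomial.card_roots' P).trans hdeg
  have h6 : k * M₀ ≤ N * (2 * k - 1) := h4.trans (Nat.mul_le_mul_left _ h5)
  by_contra hcon
  have h7 : 2 * N ≤ M₀ := by omega
  have h8 : k * (2 * N) ≤ k * M₀ := Nat.mul_le_mul_left _ h7
  have h9 : N * (2 * k - 1) + N = k * (2 * N) := by
    have h10 : 2 * k - 1 + 1 = 2 * k := by omega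
    calc N * (2 * k - 1) + N = N * (2 * k - 1 + 1) := by ring
      _ = N * (2 * k) := by rw [h10]
      _ = k * (2 * N) := by ring
  omega

/-- GCN: the count. -/
theorem GCN (hGBA : GBA_stmt) (hGZE : GZE_stmt) (hGHP : GHP_stmt) (hGPD : GPD_stmt)
    (hKO0 : V3.KO0_stmt) : GCN_stmt := by
  classical
  intro n ra Cf D hSeq hOK S mm N δ hN hδ hS hmult
  obtain ⟨ε, hε, hεδ, hεP, hεd⟩ := GCN_eps D S δ hδ (fun z hz => (hS z hz).1)
  -- radius
  obtain ⟨ρ, hρ, hρS⟩ : ∃ ρ > (0 : ℝ), ∀ z ∈ S, ball z ε ⊆ ball (0 : ℂ) ρ := by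
    refine ⟨∑ z ∈ S, ‖z‖ + ε, by positivity, ?_⟩
    intro z hz
    apply ball_subset_ball'
    rw [dist_zero_right]
    have h1 : ‖z‖ ≤ ∑ z ∈ S, ‖z‖ :=
      Finset.single_le_sum (f := fun z : ℂ => ‖z‖) (fun i _ => norm_nonneg i) hz
    linarith
  have hK : IsCompact (⋃ z ∈ S, closedBall z ε) :=
    S.isCompact_biUnion fun z _ => isCompact_closedBall z ε
  have hKP : (⋃ z ∈ S, closedBall z ε) ⊆ (Pin D)ᶜ := by
    intro x hx
    rw [mem_iUnion₂] at hx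
    obtain ⟨z, hz, hxz⟩ := hx
    exact hεP z hz hxz
  have e1 : ∀ᶠ m in UF, ∀ z ∈ S, ∀ j ≤ (D m).k, ∃ (S' : Finset ℂ) (μ : ℂ → ℕ),
      (∀ u ∈ S', u ∈ ball z ε ∧ OrdGe ((D m).T j) u (μ u)) ∧ ∑ u ∈ S', μ u = mm z :=
    (Finset.eventually_all S).mpr fun z hz =>
      hGZE n ra Cf D hSeq hOK z (mm z) (hS z hz).1 (hS z hz).2 ε hε
  have e2 := hGHP n ra Cf D hSeq hOK _ hK hKP
  have e3 := hOK.inj ρ hρ
  obtain ⟨m, hm1, hm2, hm3, hm4⟩ := (e1.and (e2.and (e3.and hmult))).exists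
  have hgood := hSeq.good m
  obtain ⟨-, hzx, hxz, -, -, -, -, hpoly, -⟩ := hGBA n ra Cf (D m) hgood
  have hP := hGPD.1 (D m).k (D m).b (D m).g hgood.cyc.inj
  have hk := hgood.hk
  -- choose the points
  have hch : ∀ z ∈ S, ∀ j, ∃ (S' : Finset ℂ) (μ : ℂ → ℕ), j < (D m).k →
      (∀ u ∈ S', u ∈ ball z ε ∧ OrdGe ((D m).T j) u (μ u)) ∧ ∑ u ∈ S', μ u = mm z := by
    intro z hz j
    by_cases hj : j < (D m).k
    · obtain ⟨S', μ, h⟩ := hm1 z hz j hj.le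
      exact ⟨S', μ, fun _ => h⟩
    · exact ⟨∅, fun _ => 0, fun h => absurd h hj⟩
  choose! S' μ hS' using hch
  have hmem : ∀ j < (D m).k, ∀ u ∈ S.biUnion (fun z => S' z j), ∃ z ∈ S, u ∈ ball z ε := by
    intro j hj u hu
    rw [Finset.mem_biUnion] at hu
    obtain ⟨z, hz, huz⟩ := hu
    exact ⟨z, hz, ((hS' z hz j hj).1 u huz).1⟩
  have hmemρ : ∀ j < (D m).k, ∀ u ∈ S.biUnion (fun z => S' z j), u ∈ ball (0 : ℂ) ρ := by
    intro j hj u hu
    obtain ⟨z, hz, huz⟩ := hmem j hj u hu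
    exact hρS z hz huz
  apply GCN_count (D m).k N (∑ z ∈ S, mm z) (by omega) hN (Ppoly (D m).b (D m).g) hP.2 hP.1
    (fun j => S.biUnion (fun z => S' z j)) (fun j u => (D m).zz ((D m).F j u))
  · intro j hj u hu u' hu' h
    have h1 : (D m).F j u = (D m).F j u' := by
      rw [← hxz ((D m).F j u), ← hxz ((D m).F j u')]
      exact congrArg _ h
    exact hm3 j hj.le (hmemρ j hj u hu) (hmemρ j hj u' hu') h1
  · intro j hj
    have hdis : (S : Set ℂ).PairwiseDisjoint (fun z => S' z j) := by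
      intro z hz z' hz' hne
      rw [Function.onFun, Finset.disjoint_left]
      intro u hu hu'
      exact Set.disjoint_left.mp (hεd z hz z' hz' hne) ((hS' z hz j hj).1 u hu).1
        ((hS' z' hz' j hj).1 u hu').1
    rw [Finset.sum_biUnion hdis]
    apply Finset.sum_le_sum
    intro z hz
    rw [← (hS' z hz j hj).2]
    apply Finset.sum_le_sum
    intro u hu
    obtain ⟨hub, huo⟩ := (hS' z hz j hj).1 u hu
    apply hGPD.2 n ra Cf (D m) hgood j (μ z j u) u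
    · intro l
      apply hm2 j hj.le u _ l
      rw [mem_iUnion₂]
      exact ⟨z, hz, ball_subset_closedBall hub⟩
    · obtain ⟨Q, hQ⟩ := hpoly j
      have hd : Differentiable ℂ ((D m).F j) := by
        have h1 : (D m).F j = fun x => Q.eval x := funext hQ
        rw [h1]
        exact Q.differentiable
      exact hKO0 ((D m).F j) (ball 0 ρ) isOpen_ball hd.differentiableOn (hm3 j hj.le) u
        (hρS z hz hub)
    · exact huo
  · intro Z J hJ1 hJ2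
    apply hm4 ((D m).xx Z) J hJ1
    intro j hj
    obtain ⟨u, hu, huZ⟩ := hJ2 j hj
    obtain ⟨z, hz, huz⟩ := hmem j (hJ1 j hj) u hu
    refine ⟨u, ?_, ?_⟩
    · rw [mem_iUnion₂]
      exact ⟨z, hz, ball_subset_ball hεδ huz⟩
    · rw [← huZ]
      exact (hxz _).symm

end V3S
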